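import Mathlib
import Pool.Agent.Helper27.WC7

/-!
A convex, weakly compact, nonmetrizable subset `K` of a Hilbert space such that `C(K)` is isomorphic to
`C(L)` for a totally disconnected compact space `L`.
-/

set_option autoImplicit false

namespace Pool.Agent.Results.MP_6fa8f6_an.ZeroDimensionalCK

/-- `weakOn K`: the weak topology of the Hilbert space `H`, restricted to the set `K`: the coarsest
topology on `K` for which the restriction of every continuous linear functional is continuous. -/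
def weakOn {H : Type} [NormedAddCommGroup H] [InnerProductSpace ℝ H] (K : Set H) :
    TopologicalSpace K :=
  ⨅ f : H →L[ℝ] ℝ, TopologicalSpace.induced (fun x : K => f x) inferInstance

/-- `SupIsomorphic K L`: some linear bijection `T` from `C(K)` onto `C(L)` is bounded together with its
inverse for the supremum norms. -/
def SupIsomorphic (K L : Type) [TopologicalSpace K] [TopologicalSpace L] : Prop :=
  ∃ T : C(K, ℝ) → C(L, ℝ), IsLinearMap ℝ T ∧ Function.Bijective T ∧ ∃ a b : ℝ,
    ∀ (f : C(K, ℝ)) (M : ℝ), 0 ≤ M →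
      ((∀ x, |f x| ≤ M) → ∀ y, |T f y| ≤ a * M) ∧ ((∀ y, |T f y| ≤ M) → ∀ x, |f x| ≤ b * M)

open Pool.Agent.Helper27.WC in
theorem weakOn_homeo (K : Set HH) (K' : Set (WeakSpace ℝ HH)) (h : toWeakSpace ℝ HH '' K = K') :
    Nonempty (@Homeomorph K K' (weakOn K) inferInstance) := by
  letI : TopologicalSpace K := weakOn K
  let e : K ≃ K' := Equiv.ofBijective
    (fun x => ⟨toWeakSpace ℝ HH x.1, by rw [← h]; exact Set.mem_image_of_mem _ x.2⟩)
    ⟨fun x y hxy => Subtype.ext ((toWeakSpace ℝ HH).injective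
      (congrArg (fun z : K' => (z : WeakSpace ℝ HH)) hxy)), by
      rintro ⟨y, hy⟩
      rw [← h] at hy
      obtain ⟨x, hx, rfl⟩ := hy
      exact ⟨⟨x, hx⟩, rfl⟩⟩
  have hi : Topology.IsInducing e := by
    constructor
    have h1 : (instTopologicalSpaceSubtype : TopologicalSpace K') = TopologicalSpace.induced
        (fun (y : K') (f : HH →L[ℝ] ℝ) => f ((toWeakSpace ℝ HH).symm y.1)) inferInstance := by
      change TopologicalSpace.induced _ (TopologicalSpace.induced _ _) = _
      rw [induced_compose]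
      rfl
    rw [h1, induced_compose]
    change weakOn K = _
    rw [weakOn, Pi.topologicalSpace, induced_iInf]
    refine iInf_congr fun f => ?_
    rw [induced_compose]
    rfl
  exact ⟨e.toHomeomorphOfIsInducing hi⟩

open Pool.Agent.Helper27.WC in
theorem supIso_of_homeo (K : Set HH) (K' : Set (WeakSpace ℝ HH)) (hK' : CompactSpace K')
    (e : C(↥K', ℝ) ≃L[ℝ] C(LL, ℝ)) (t : TopologicalSpace K) (h : Nonempty (K ≃ₜ K')) :
    SupIsomorphic K LL := by
  obtain ⟨h⟩ := h
  let P : C(K, ℝ) → C(K', ℝ) := fun f => f.comp (h.symm : C(K', K))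
  have hP : Function.Bijective P := by
    constructor
    · intro f g hfg
      ext x
      have := congrArg (fun k : C(K', ℝ) => k (h x)) hfg
      simpa [P] using this
    · intro g
      exact ⟨g.comp (h : C(K, K')), by ext y; simp [P]⟩
  refine ⟨fun f => e (P f), ⟨fun f g => ?_, fun c f => ?_⟩, e.bijective.comp hP,
    ‖(e : C(↥K', ℝ) →L[ℝ] C(LL, ℝ))‖,
    ‖(e.symm : C(LL, ℝ) →L[ℝ] C(↥K', ℝ))‖, fun f M hM => ⟨?_, ?_⟩⟩
  · exact map_add e (P f) (P g)
  · exact map_smul e c (P f)
  · intro hf y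
    have h1 : ‖P f‖ ≤ M := (ContinuousMap.norm_le _ hM).2 fun x => by
      rw [Real.norm_eq_abs]; exact hf _
    have h2 : ‖e (P f)‖ ≤ ‖(e : C(↥K', ℝ) →L[ℝ] C(LL, ℝ))‖ * M := by
      refine ((e : C(↥K', ℝ) →L[ℝ] C(LL, ℝ)).le_opNorm (P f)).trans ?_
      gcongr
    rw [← Real.norm_eq_abs]
    exact ((e (P f)).norm_coe_le_norm y).trans h2
  · intro hf x
    have h1 : ‖e (P f)‖ ≤ M := (ContinuousMap.norm_le _ hM).2 fun y => by
      rw [Real.norm_eq_abs]; exact hf y
    have h2 : ‖P f‖ ≤ ‖(e.symm : C(LL, ℝ) →L[ℝ] C(↥K', ℝ))‖ * M := by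
      have := (e.symm : C(LL, ℝ) →L[ℝ] C(↥K', ℝ)).le_opNorm (e (P f))
      have h3 : (e.symm : C(LL, ℝ) →L[ℝ] C(↥K', ℝ)) (e (P f)) = P f := e.symm_apply_apply _
      rw [h3] at this
      refine this.trans ?_
      gcongr
    rw [← Real.norm_eq_abs]
    have h4 := ((P f).norm_coe_le_norm (h x)).trans h2
    simpa [P] using h4

/-- There are a real Hilbert space `H`, a convex subset `K` of `H` which is compact and nonmetrizable in
the weak topology of `H`, and a totally disconnected compact Hausdorff space `L`, such that the Banach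
spaces `C(K)` (`K` with the weak topology) and `C(L)` are isomorphic. -/
theorem result :
    ∃ (H : Type) (_ : NormedAddCommGroup H) (_ : InnerProductSpace ℝ H) (_ : CompleteSpace H)
      (K : Set H) (L : Type) (_ : TopologicalSpace L),
      Convex ℝ K ∧ @CompactSpace K (weakOn K) ∧ ¬ @TopologicalSpace.MetrizableSpace K (weakOn K) ∧
      CompactSpace L ∧ T2Space L ∧ TotallyDisconnectedSpace L ∧
      @SupIsomorphic K L (weakOn K) _ := by
  open Pool.Agent.Helper27.WC in
  have h : toWeakSpace ℝ HH '' (Set.range JJ) = KK := by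
    rw [← Set.range_comp]; rfl
  have hconv : Convex ℝ (Set.range JJ) := by
    have e : Set.range JJ = (toWeakSpace ℝ HH : HH →ₗ[ℝ] WeakSpace ℝ HH) ⁻¹' KK := by
      rw [← h]
      exact (Set.preimage_image_eq _ (toWeakSpace ℝ HH).injective).symm
    rw [e]
    exact convex_KK.linear_preimage _
  have hKK : CompactSpace ↥KK := isCompact_iff_compactSpace.mp isCompact_KK
  obtain ⟨e⟩ : Nonempty (C(↥KK, ℝ) ≃L[ℝ] C(LL, ℝ)) := by
    obtain ⟨e⟩ := homeo_KK
    obtain ⟨j, hj⟩ := exists_extension
    obtain ⟨e1⟩ := decomposition C(↥K0, ℝ) C(LL, ℝ) (curryEquiv LL shiftHomeo) j ss hj ii rr rr_ii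
    obtain ⟨e2⟩ := equivOfHomeo e.symm
    exact ⟨e2.trans e1⟩
  obtain ⟨w⟩ := weakOn_homeo (Set.range JJ) KK h
  refine ⟨HH, inferInstance, inferInstance, inferInstance, Set.range JJ, LL, inferInstance, hconv,
    ?_, ?_, inferInstance, inferInstance, inferInstance, ?_⟩
  · letI := weakOn (Set.range JJ)
    exact w.symm.compactSpace
  · intro hm
    letI := weakOn (Set.range JJ)
    exact KK_not_metrizable w.symm.isEmbedding.metrizableSpace
  · letI := weakOn (Set.range JJ)
    exact supIso_of_homeo _ _ hKK e _ ⟨w⟩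

end Pool.Agent.Results.MP_6fa8f6_an.ZeroDimensionalCK
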